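import Mathlib
import Pool.Agent.Lib.Helper95.Borsuk.Select
import Pool.Agent.Lib.H57B.Lovasz

/-!
# Two-point concentration of the chromatic number of random Borsuk graphs

Let `α₀` be such that the Borsuk graph on `S^d` has chromatic number `d + 2` for all `0 < α < α₀`, as in the problem
(that some `α₀ > 0` with this property exists, the theorem of Erdős and Hajnal, is proved here too: it is the first
part of `result`).  Then for every sequence `α(n)` in `(0, α₀)` the chromatic number of the random Borsuk graph
`G(n, α(n))` lies in `{k(n), k(n) + 1}` with probability tending to `1`, for some `k(n)`.  The second part of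
`result` says this for every `α₀` such that the chromatic number is one and the same `c` on `(0, α₀)`.

Idea of the proof.

* One extra colour (`good_color`).  If `G` restricted to the vertices within distance `2α` of a hyperplane `ν^⊥` is
  `k`-colourable, then `G` is `(k+1)`-colourable: a new colour for the vertices at height `> α`, an old colour for
  those at height `< -2α`.
* Correlations (`prod_ineq`).  For i.i.d. points and disjoint small regions `A, B`, two functions of the sample which
  depend only on the points in `W ∪ A` and in `W ∪ B` are nearly conditionally uncorrelated given the points in `W`;
  the bound does not depend on the number of points.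
* Flags (`flags`).  Starting from `{0}` choose many subspaces of dimension `1`, in each of them many of dimension `2`
  (pairwise meeting only in the parent), and so on up to hyperplanes.  The conditional probability of the event
  `D = {χ ≤ k}` given the points near a subspace is, up to a small error in mean, the average of those of its
  children.  So the average over all the hyperplanes is close to `P(D)`, and if `P(D)` is not small then with high
  probability there is a hyperplane near which the graph is `k`-colourable.
* Hence `P(χ ≤ k) P(χ ≥ k + 2) → 0` as `α → 0`, uniformly in `n` and `k` (`no_gap`).
* For `α` bounded below the sample contains a copy of a finite subgraph of the Borsuk graph which is not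
  `(c-1)`-colourable (`dense_not_colorable`).
* The Borsuk graph has chromatic number `d + 2` for `0 < α ≤ 1/(4(d+1))` (`borsuk_chromaticNumber`): the lower bound
  from the Borsuk-Ulam theorem, which is proved in this repository from Tucker's lemma (`H72V.borsuk_ulam`).
-/

open MeasureTheory Filter Topology

namespace Pool.Agent.Results.MP_a0c464_pr.TwoPointConcentration

open BorsukLib

theorem result (d : ℕ) :
    (∃ α₁ > (0:ℝ), ∀ α, 0 < α → α < α₁ → (borsukGraph d α).chromaticNumber = d + 2) ∧
    ∀ (α₀ : ℝ) (c : ℕ), (∀ α, 0 < α → α < α₀ → (borsukGraph d α).chromaticNumber = c) →
      ∀ α : ℕ → ℝ, (∀ n, 0 < α n ∧ α n < α₀) →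
        ∃ k : ℕ → ℕ, Tendsto
          (fun n => sampleLaw d n {X : Fin n → Sph d |
            (sampleGraph (α n) X).chromaticNumber = k n ∨
            (sampleGraph (α n) X).chromaticNumber = k n + 1}) atTop (𝓝 1) :=
  ⟨⟨1 / (4 * ((d : ℝ) + 1)), by positivity, fun _ h0 h1 => borsuk_chromaticNumber h0 h1.le⟩,
    fun _ _ hc α hα => two_point hc α hα⟩

end Pool.Agent.Results.MP_a0c464_pr.TwoPointConcentration
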